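import Mathlib

/-!
# MP_201e5f_co, Q1: kernel-perfect biorientations and derangement assignments

The assertion of Q1 is false, even for simple graphs.

The multigraph behind the example is the triangle with doubled edges (the signed graph `±K₃`): one
edge of every pair is straight, and the straight edges are oriented along a directed triangle; the
other edge is twisted by `0 ↔ 1, 2 ↔ 3` and oriented both ways.  All lists are `{0,1,2,3}`.
In the simple graph below each straight edge is replaced by a path of cliques.  Its vertices are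
`(i, k)` with `i : Fin 3`, `k : Fin 5`; `(i, 0)` are the vertices of the triangle of twisted edges,
and `(i, 0) → (i, 1) → {(i, 4) → (i, 3) → (i, 2)} → (i + 1, 0)`, where the three vertices in the
braces form a transitive tournament.
-/

set_option autoImplicit false

open Finset

namespace Pool.Agent.Results.MP_201e5f_co.SimpleCounterexample

/-! ### Definitions -/

/-- A loopless multigraph with vertex set `V` and edge set `E`; the ends of `e` are `a e`, `b e`. -/
structure MGraph (V E : Type) where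
  a : E → V
  b : E → V
  ne : ∀ e, a e ≠ b e

/-- No two edges have the same ends. -/
def MGraph.Simple {V E : Type} (G : MGraph V E) : Prop :=
  ∀ e f, (G.a e = G.a f ∧ G.b e = G.b f) ∨ (G.a e = G.b f ∧ G.b e = G.a f) → e = f

/-- A biorientation of `G`: it has the arc `(a e, b e)` if `fwd e`, and the arc `(b e, a e)` if
`bwd e`. -/
structure Biorientation {V E : Type} (G : MGraph V E) where
  fwd : E → Bool
  bwd : E → Bool
  or : ∀ e, fwd e = true ∨ bwd e = true

section Defs

variable {V E C : Type} {G : MGraph V E}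

/-- There is an arc `(u, v)`. -/
def Biorientation.Arc (D : Biorientation G) (u v : V) : Prop :=
  ∃ e, (D.fwd e = true ∧ G.a e = u ∧ G.b e = v) ∨ (D.bwd e = true ∧ G.b e = u ∧ G.a e = v)

/-- The number of arcs `(v, ·)`. -/
def Biorientation.outdeg [Fintype E] [DecidableEq V] (D : Biorientation G) (v : V) : ℕ :=
  (univ.filter fun e => D.fwd e = true ∧ G.a e = v).card +
    (univ.filter fun e => D.bwd e = true ∧ G.b e = v).card

/-- `U` is a kernel of the subdigraph induced on `S`. -/
def Biorientation.IsKernel (D : Biorientation G) (S U : Set V) : Prop :=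
  U ⊆ S ∧ (∀ u ∈ U, ∀ v ∈ U, ¬ D.Arc u v) ∧ ∀ v ∈ S, v ∉ U → ∃ u ∈ U, D.Arc v u

/-- Every induced subdigraph has a kernel. -/
def Biorientation.KernelPerfect (D : Biorientation G) : Prop := ∀ S : Set V, ∃ U, D.IsKernel S U

/-- `(L, M)` is a correspondence assignment; `M e c c'` says that `(a e, c)` and `(b e, c')` are
matched by `e`. -/
def IsAssignment (G : MGraph V E) (L : V → Finset C) (M : E → C → C → Prop) : Prop :=
  (∀ e c c', M e c c' → c ∈ L (G.a e) ∧ c' ∈ L (G.b e)) ∧
  (∀ e c c' c'', M e c c' → M e c c'' → c' = c'') ∧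
  ∀ e c c' c'', M e c c'' → M e c' c'' → c = c'

/-- The edge `e` is straight. -/
def Straight (M : E → C → C → Prop) (e : E) : Prop := ∀ c c', M e c c' → c = c'

/-- Twisted edges are partial derangements. -/
def IsDerangement (M : E → C → C → Prop) : Prop := ∀ e, ¬ Straight M e → ∀ c, ¬ M e c c

/-- There is an `(L, M)`-colouring. -/
def Colourable (G : MGraph V E) (L : V → Finset C) (M : E → C → C → Prop) : Prop :=
  ∃ φ : V → C, (∀ v, φ v ∈ L v) ∧ ∀ e, ¬ M e (φ (G.a e)) (φ (G.b e))

end Defs

/-! ### A sufficient condition for kernels -/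

lemma exists_kernel_of_rank {V E : Type} [Fintype V] {G : MGraph V E} (D : Biorientation G)
    (ρ : V → ℕ) (S : Set V)
    (h : ∀ e, G.a e ∈ S → G.b e ∈ S → (D.fwd e = true ∧ ρ (G.b e) < ρ (G.a e)) ∨
      (D.bwd e = true ∧ ρ (G.a e) < ρ (G.b e))) : ∃ U, D.IsKernel S U := by
  classical
  obtain ⟨n, hn⟩ : ∃ n, S.ncard = n := ⟨_, rfl⟩
  induction n using Nat.strong_induction_on generalizing S with
  | _ n ih =>
    rcases S.eq_empty_or_nonempty with rfl | hS
    · exact ⟨∅, Set.Subset.rfl, by simp, by simp⟩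
    · obtain ⟨v, hv, hmin⟩ := Set.exists_min_image S ρ S.toFinite hS
      set T : Set V := {u | u ∈ S ∧ u ≠ v ∧ ¬ D.Arc u v} with hT
      have hTS : T ⊆ S := fun u hu => hu.1
      have hlt : T.ncard < n := by
        rw [← hn]
        exact Set.ncard_lt_ncard ⟨hTS, fun h' => (h' hv).2.1 rfl⟩ S.toFinite
      obtain ⟨U, hUT, hU1, hU2⟩ := ih T.ncard hlt T
        (fun e ha hb => h e (hTS ha) (hTS hb)) rfl
      -- all edges at `v` inside `S` have an arc to `v`
      have hin : ∀ u ∈ S, D.Arc v u → D.Arc u v := by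
        rintro u hu ⟨e, ⟨_, he1, he2⟩ | ⟨_, he1, he2⟩⟩
        · rcases h e (he1 ▸ hv) (he2 ▸ hu) with ⟨_, h1⟩ | ⟨h1, _⟩
          · have := hmin u hu
            rw [he1, he2] at h1
            omega
          · exact ⟨e, Or.inr ⟨h1, he2, he1⟩⟩
        · rcases h e (he2 ▸ hu) (he1 ▸ hv) with ⟨h1, _⟩ | ⟨_, h1⟩
          · exact ⟨e, Or.inl ⟨h1, he2, he1⟩⟩
          · have := hmin u hu
            rw [he1, he2] at h1
            omega
      have hloop : ¬ D.Arc v v := by
        rintro ⟨e, ⟨_, he1, he2⟩ | ⟨_, he1, he2⟩⟩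
        · exact G.ne e (he1.trans he2.symm)
        · exact G.ne e (he2.trans he1.symm)
      refine ⟨insert v U, Set.insert_subset hv (hUT.trans hTS), ?_, ?_⟩
      · intro x hx y hy
        rcases hx with rfl | hx <;> rcases hy with rfl | hy
        · exact hloop
        · intro hxy
          exact (hUT hy).2.2 (hin y (hTS (hUT hy)) hxy)
        · exact (hUT hx).2.2
        · exact hU1 x hx y hy
      · intro x hx hxU
        rw [Set.mem_insert_iff, not_or] at hxU
        by_cases hxv : D.Arc x v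
        · exact ⟨v, Set.mem_insert _ _, hxv⟩
        · obtain ⟨u, hu, hxu⟩ := hU2 x ⟨hx, hxU.1, hxv⟩ hxU.2
          exact ⟨u, Set.mem_insert_of_mem _ hu, hxu⟩

/-! ### The example -/

/-- The index in `Fin 5` of the first end of an edge. -/
def sk : Fin 11 → Fin 5 := ![0, 0, 1, 1, 1, 3, 4, 4, 2, 3, 4]

/-- The index in `Fin 5` of the second end of an edge. -/
def tk : Fin 11 → Fin 5 := ![0, 1, 2, 3, 4, 2, 2, 3, 0, 0, 0]

/-- Whether the second end lies in the next block. -/
def sh : Fin 11 → Fin 3 := ![1, 0, 0, 0, 0, 0, 0, 0, 1, 1, 1]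

/-- The graph. -/
def Gr : MGraph (Fin 3 × Fin 5) (Fin 3 × Fin 11) where
  a e := (e.1, sk e.2)
  b e := (e.1 + sh e.2, tk e.2)
  ne := by decide

/-- The biorientation. -/
def Di : Biorientation Gr where
  fwd _ := true
  bwd e := decide (e.2 = 0)
  or _ := Or.inl rfl

/-- The permutation on the twisted edges. -/
def sw : Fin 4 → Fin 4 := ![1, 0, 3, 2]

/-- The matchings. -/
def Ma (e : Fin 3 × Fin 11) (c c' : Fin 4) : Prop := c' = if e.2 = 0 then sw c else c

lemma simple_Gr : Gr.Simple := by
  unfold MGraph.Simple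
  decide

lemma outdeg_Di (v : Fin 3 × Fin 5) : Di.outdeg v ≤ 3 := by
  revert v
  decide

lemma not_colourable : ¬ Colourable Gr (fun _ => (univ : Finset (Fin 4))) Ma := by
  rintro ⟨φ, _, hφ⟩
  have hS : ∀ (i : Fin 3) (k : Fin 11), k ≠ 0 → φ (i, sk k) ≠ φ (i + sh k, tk k) := by
    intro i k hk h
    apply hφ (i, k)
    show φ (i + sh k, tk k) = if k = 0 then sw (φ (i, sk k)) else φ (i, sk k)
    rw [if_neg hk, h]
  have hT : ∀ i : Fin 3, φ (i + 1, 0) ≠ sw (φ (i, 0)) := by
    intro i h
    apply hφ (i, 0)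
    show φ (i + sh 0, tk 0) = if (0 : Fin 11) = 0 then sw (φ (i, sk 0)) else φ (i, sk 0)
    rw [if_pos rfl]
    exact h
  have hfour : ∀ x y z u w : Fin 4, x ≠ y → x ≠ z → y ≠ z → u ≠ x → u ≠ y → u ≠ z →
      w ≠ x → w ≠ y → w ≠ z → u = w := by decide
  have hE : ∀ i : Fin 3, φ (i, 0) ≠ φ (i + 1, 0) := by
    intro i h
    have h1 : φ (i, 1) = φ (i + 1, 0) := by
      refine hfour (φ (i, 2)) (φ (i, 3)) (φ (i, 4)) _ _ ?_ ?_ ?_ ?_ ?_ ?_ ?_ ?_ ?_
      · have := hS i 5 (by decide); simp only [sk, tk, sh] at this; simpa using this.symm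
      · have := hS i 6 (by decide); simp only [sk, tk, sh] at this; simpa using this.symm
      · have := hS i 7 (by decide); simp only [sk, tk, sh] at this; simpa using this.symm
      · have := hS i 2 (by decide); simp only [sk, tk, sh] at this; simpa using this
      · have := hS i 3 (by decide); simp only [sk, tk, sh] at this; simpa using this
      · have := hS i 4 (by decide); simp only [sk, tk, sh] at this; simpa using this
      · have := hS i 8 (by decide); simp only [sk, tk, sh] at this; simpa using this.symm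
      · have := hS i 9 (by decide); simp only [sk, tk, sh] at this; simpa using this.symm
      · have := hS i 10 (by decide); simp only [sk, tk, sh] at this; simpa using this.symm
    have h2 := hS i 1 (by decide)
    simp only [sk, tk, sh] at h2
    have h3 : φ (i, 0) ≠ φ (i, 1) := by simpa using h2
    exact h3 (h.trans h1.symm)
  have hfin : ∀ p q r : Fin 4, p ≠ q → q ≠ r → r ≠ p → q ≠ sw p → r ≠ sw q → p ≠ sw r → False := by
    decide
  exact hfin (φ (0, 0)) (φ (1, 0)) (φ (2, 0)) (hE 0) (hE 1) (hE 2) (hT 0) (hT 1) (hT 2)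

/-- The position in the order that starts with the block `j`. -/
def pos (j : Fin 3) (v : Fin 3 × Fin 5) : ℕ := 5 * (2 - (v.1 - j : Fin 3).val) + (![4, 3, 0, 1, 2] v.2 : ℕ)

/-- The position in the order that starts with the clique of the block `i`. -/
def pos' (i : Fin 3) (v : Fin 3 × Fin 5) : ℕ :=
  if v.1 = i ∧ 2 ≤ v.2.val then 100 + v.2.val else pos (i + 1) v

lemma rank_A : ∀ (j : Fin 3) (e : Fin 3 × Fin 11), Gr.a e = (j, 0) ∨ Gr.b e = (j, 0) ∨
    (Di.fwd e = true ∧ pos j (Gr.b e) < pos j (Gr.a e)) ∨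
    (Di.bwd e = true ∧ pos j (Gr.a e) < pos j (Gr.b e)) := by
  decide

lemma rank_B : ∀ (i : Fin 3) (e : Fin 3 × Fin 11),
    (Gr.a e = (i, 1) ∧ (Gr.b e = (i, 2) ∨ Gr.b e = (i, 3) ∨ Gr.b e = (i, 4))) ∨
    (Di.fwd e = true ∧ pos' i (Gr.b e) < pos' i (Gr.a e)) ∨
    (Di.bwd e = true ∧ pos' i (Gr.a e) < pos' i (Gr.b e)) := by
  decide

instance arcDec (u v : Fin 3 × Fin 5) : Decidable (Di.Arc u v) := by
  unfold Biorientation.Arc
  infer_instance

lemma case_C : ∀ p q : Fin 5, 2 ≤ p.val → 2 ≤ q.val →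
    (∀ u ∈ ({(0, 0), (2, 1), (0, p), (1, q)} : Finset (Fin 3 × Fin 5)),
      ∀ v ∈ ({(0, 0), (2, 1), (0, p), (1, q)} : Finset (Fin 3 × Fin 5)), ¬ Di.Arc u v) ∧
    ∀ v : Fin 3 × Fin 5, v ∈ ({(0, 0), (2, 1), (0, p), (1, q)} : Finset (Fin 3 × Fin 5)) ∨
      (∃ u ∈ ({(0, 0), (2, 1), (0, p), (1, q)} : Finset (Fin 3 × Fin 5)), Di.Arc v u) ∨
      (v.1 = 0 ∧ 2 ≤ v.2.val ∧ v.2 < p) ∨ (v.1 = 1 ∧ 2 ≤ v.2.val ∧ v.2 < q) := by
  decide

theorem kernelPerfect : Di.KernelPerfect := by
  classical
  intro S
  by_cases hA : ∃ j : Fin 3, ((j, 0) : Fin 3 × Fin 5) ∉ S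
  · obtain ⟨j, hj⟩ := hA
    refine exists_kernel_of_rank Di (pos j) S fun e ha hb => ?_
    rcases rank_A j e with h | h | h
    · exact absurd (h ▸ ha) hj
    · exact absurd (h ▸ hb) hj
    · exact h
  · by_cases hB : ∃ i : Fin 3, ((i, 1) : Fin 3 × Fin 5) ∉ S ∨
        (((i, 2) : Fin 3 × Fin 5) ∉ S ∧ ((i, 3) : Fin 3 × Fin 5) ∉ S ∧
          ((i, 4) : Fin 3 × Fin 5) ∉ S)
    · obtain ⟨i, hi⟩ := hB
      refine exists_kernel_of_rank Di (pos' i) S fun e ha hb => ?_
      rcases rank_B i e with ⟨h1, h2⟩ | h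
      · exfalso
        rcases hi with hi | ⟨h3, h4, h5⟩
        · exact hi (h1 ▸ ha)
        · rcases h2 with h2 | h2 | h2
          · exact h3 (h2 ▸ hb)
          · exact h4 (h2 ▸ hb)
          · exact h5 (h2 ▸ hb)
      · exact h
    · push Not at hA hB
      have hmin : ∀ i : Fin 3, ∃ p : Fin 5, 2 ≤ p.val ∧ ((i, p) : Fin 3 × Fin 5) ∈ S ∧
          ∀ q : Fin 5, 2 ≤ q.val → q < p → ((i, q) : Fin 3 × Fin 5) ∉ S := by
        intro i
        by_cases h2 : ((i, 2) : Fin 3 × Fin 5) ∈ S
        · exact ⟨2, by decide, h2, fun q hq hq2 => by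
            exfalso
            have : q.val < 2 := hq2
            omega⟩
        · by_cases h3 : ((i, 3) : Fin 3 × Fin 5) ∈ S
          · refine ⟨3, by decide, h3, fun q hq hq3 => ?_⟩
            have h4 : q.val < 3 := hq3
            have : q = 2 := Fin.ext (by show q.val = 2; omega)
            rw [this]
            exact h2
          · refine ⟨4, by decide, (hB i).2 h2 h3, fun q hq hq4 => ?_⟩
            have h4 : q.val < 4 := hq4
            rcases (show q.val = 2 ∨ q.val = 3 by omega) with h | h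
            · have : q = 2 := Fin.ext h
              rw [this]
              exact h2
            · have : q = 3 := Fin.ext h
              rw [this]
              exact h3
      obtain ⟨p, hp, hpS, hpm⟩ := hmin 0
      obtain ⟨q, hq, hqS, hqm⟩ := hmin 1
      obtain ⟨h1, h2⟩ := case_C p q hp hq
      refine ⟨(({(0, 0), (2, 1), (0, p), (1, q)} : Finset (Fin 3 × Fin 5)) : Set (Fin 3 × Fin 5)),
        ?_, fun u hu v hv => h1 u hu v hv, ?_⟩
      · intro v hv
        rw [mem_coe] at hv
        simp only [mem_insert, mem_singleton] at hv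
        rcases hv with rfl | rfl | rfl | rfl
        · exact hA 0
        · exact (hB 2).1
        · exact hpS
        · exact hqS
      · intro v hv hvU
        rcases h2 v with h | h | ⟨h3, h4, h5⟩ | ⟨h3, h4, h5⟩
        · exact absurd (mem_coe.mpr h) hvU
        · obtain ⟨u, hu, huv⟩ := h
          exact ⟨u, mem_coe.mpr hu, huv⟩
        · exfalso
          refine hpm v.2 h4 h5 ?_
          rw [← h3]
          exact hv
        · exfalso
          refine hqm v.2 h4 h5 ?_
          rw [← h3]
          exact hv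

/-- **The assertion of Q1 is false**, even for simple graphs. -/
theorem result : ∃ (V E C : Type) (_ : Fintype V) (_ : Fintype E) (_ : DecidableEq V)
    (G : MGraph V E) (D : Biorientation G) (L : V → Finset C) (M : E → C → C → Prop),
    G.Simple ∧ D.KernelPerfect ∧ IsAssignment G L M ∧ IsDerangement M ∧
    (∀ e, ¬ Straight M e → D.fwd e = true ∧ D.bwd e = true) ∧
    (∀ v, D.outdeg v + 1 ≤ (L v).card) ∧ ¬ Colourable G L M := by
  have hsw : ∀ c : Fin 4, sw c ≠ c := by decide
  have hswi : ∀ c c' : Fin 4, sw c = sw c' → c = c' := by decide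
  have hstr : ∀ e : Fin 3 × Fin 11, e.2 ≠ 0 → Straight Ma e := by
    intro e he c c' h
    unfold Ma at h
    rw [if_neg he] at h
    exact h.symm
  refine ⟨Fin 3 × Fin 5, Fin 3 × Fin 11, Fin 4, inferInstance, inferInstance, inferInstance, Gr, Di,
    fun _ => univ, Ma, simple_Gr, kernelPerfect, ⟨fun _ _ _ _ => ⟨mem_univ _, mem_univ _⟩, ?_, ?_⟩,
    ?_, ?_, ?_, not_colourable⟩
  · intro e c c' c'' h h'
    unfold Ma at h h'
    rw [h, h']
  · intro e c c' c'' h h'
    unfold Ma at h h'
    by_cases he : e.2 = 0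
    · rw [if_pos he] at h h'
      exact hswi _ _ (h.symm.trans h')
    · rw [if_neg he] at h h'
      exact h.symm.trans h'
  · intro e he c h
    by_cases he0 : e.2 = 0
    · unfold Ma at h
      rw [if_pos he0] at h
      exact hsw c h.symm
    · exact he (hstr e he0)
  · intro e he
    have he0 : e.2 = 0 := by
      by_contra h
      exact he (hstr e h)
    exact ⟨rfl, by simp [Di, he0]⟩
  · intro v
    have := outdeg_Di v
    rw [card_univ, Fintype.card_fin]
    omega

end Pool.Agent.Results.MP_201e5f_co.SimpleCounterexample
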